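import Pool.Agent.H83.G.Targets1

/-!
# MP_ee74d2_an, board g_modules: algebra of the Lorentz maps (LOA)
-/

set_option autoImplicit false

namespace Pool.Agent.H65.G.LOA

open MeasureTheory Set Pool.Agent.H83.G
open scoped ENNReal NNReal RealInnerProductSpace

variable {m : ℕ}

private theorem lo_add (η : E m) (s : ℝ) (z z' : Z m) :
    Lo η s (z + z') = Lo η s z + Lo η s z' := by
  refine Prod.ext ?_ (Prod.ext ?_ ?_)
  · simp only [Lo, Prod.fst_add, Prod.snd_add, inner_add_left]
    ring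
  · simp only [Lo, Prod.fst_add, Prod.snd_add]
    module
  · simp only [Lo, Prod.snd_add]
    ring

private theorem lo_smul (η : E m) (s c : ℝ) (z : Z m) :
    Lo η s (c • z) = c • Lo η s z := by
  refine Prod.ext ?_ (Prod.ext ?_ ?_)
  · simp only [Lo, Prod.smul_fst, Prod.smul_snd, real_inner_smul_left, smul_eq_mul]
    ring
  · simp only [Lo, Prod.smul_fst, Prod.smul_snd, smul_eq_mul]
    module
  · simp only [Lo, Prod.smul_snd, smul_eq_mul]
    ring

private theorem ld_add (η : E m) (s : ℝ) (z z' : Z m) :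
    Ld η s (z + z') = Ld η s z + Ld η s z' := by
  refine Prod.ext ?_ (Prod.ext ?_ ?_)
  · simp only [Ld, Prod.fst_add]
  · simp only [Ld, Prod.fst_add, Prod.snd_add]
    module
  · simp only [Ld, Prod.fst_add, Prod.snd_add, inner_add_left]
    ring

private theorem ld_smul (η : E m) (s c : ℝ) (z : Z m) :
    Ld η s (c • z) = c • Ld η s z := by
  refine Prod.ext ?_ (Prod.ext ?_ ?_)
  · simp only [Ld, Prod.smul_fst]
  · simp only [Ld, Prod.smul_fst, Prod.smul_snd, smul_eq_mul]
    module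
  · simp only [Ld, Prod.smul_fst, Prod.smul_snd, real_inner_smul_left, smul_eq_mul]
    ring

private theorem lo_sub (η : E m) (s : ℝ) (z z' : Z m) :
    Lo η s (z - z') = Lo η s z - Lo η s z' := by
  have h1 : z - z' = z + (-1 : ℝ) • z' := by module
  rw [h1, lo_add, lo_smul]
  module

private theorem ld_sub (η : E m) (s : ℝ) (z z' : Z m) :
    Ld η s (z - z') = Ld η s z - Ld η s z' := by
  have h1 : z - z' = z + (-1 : ℝ) • z' := by module
  rw [h1, ld_add, ld_smul]
  module

private theorem ph_ld (η : E m) (s : ℝ) (z ζ : Z m) : ph z (Ld η s ζ) = ph (Lo η s z) ζ := by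
  simp only [ph, Ld, Lo, inner_add_left, inner_add_right, real_inner_smul_left,
    real_inner_smul_right]
  rw [real_inner_comm ζ.2.1 η]
  ring

private theorem norm_add_smul_sq (η η' : E m) (s : ℝ) :
    ‖η + s • η'‖ ^ 2 = ‖η‖ ^ 2 + 2 * (s * ⟪η, η'⟫) + s ^ 2 * ‖η'‖ ^ 2 := by
  rw [norm_add_sq_real, real_inner_smul_right, norm_smul, mul_pow, Real.norm_eq_abs, sq_abs]

private theorem lo_comp (η η' : E m) (s s' : ℝ) (z : Z m) :
    Lo η' s' (Lo η s z) = Lo (η + s • η') (s * s') z := by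
  refine Prod.ext ?_ (Prod.ext ?_ ?_)
  · simp only [Lo, inner_add_left, inner_add_right, real_inner_smul_left, real_inner_smul_right,
      norm_add_smul_sq]
    ring
  · simp only [Lo]
    module
  · simp only [Lo]
    ring

private theorem ld_comp (η η' : E m) (s s' : ℝ) (z : Z m) :
    Ld η s (Ld η' s' z) = Ld (η + s • η') (s * s') z := by
  refine Prod.ext ?_ (Prod.ext ?_ ?_)
  · simp only [Ld]
  · simp only [Ld]
    module
  · simp only [Ld, inner_add_left, inner_add_right, real_inner_smul_left, real_inner_smul_right,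
      norm_add_smul_sq]
    rw [real_inner_comm η η']
    ring

theorem pf_LOA : T_LOA := by
  intro m
  refine ⟨fun η s z z' => ⟨lo_add η s z z', lo_sub η s z z', ld_add η s z z', ld_sub η s z z'⟩,
    fun η s c z => ⟨lo_smul η s c z, ld_smul η s c z⟩, fun η s z ζ => ph_ld η s z ζ,
    fun η η' s s' z => ⟨lo_comp η η' s s' z, ld_comp η η' s s' z⟩, fun z => ⟨?_, ?_⟩, ?_⟩
  · refine Prod.ext ?_ (Prod.ext ?_ ?_) <;> simp [Lo]
  · refine Prod.ext ?_ (Prod.ext ?_ ?_) <;> simp [Ld]
  · intro η s ζ h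
    refine ⟨rfl, ?_, ?_⟩
    · simp only [Ld]
      rw [smul_add, smul_smul, smul_smul, smul_smul, inv_mul_cancel₀ h, one_smul,
        add_sub_cancel_right, mul_comm]
    · simp only [Ld]
      have h1 : ‖s • ζ.2.1 + ζ.1 • η‖ ^ 2 =
          s ^ 2 * ‖ζ.2.1‖ ^ 2 + 2 * (s * (ζ.1 * ⟪ζ.2.1, η⟫)) + ζ.1 ^ 2 * ‖η‖ ^ 2 := by
        rw [norm_add_sq_real, real_inner_smul_right, real_inner_smul_left, norm_smul, norm_smul,
          mul_pow, mul_pow, Real.norm_eq_abs, Real.norm_eq_abs, sq_abs, sq_abs]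
        ring
      rw [h1]
      field_simp
      ring

end Pool.Agent.H65.G.LOA
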