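import Pool.Agent.H83.G.Targets1

/-!
# MP_ee74d2_an, board g_modules: rescaling of `TF` (SCL)
-/

set_option autoImplicit false

namespace Pool.Agent.H65.G.SCL

open MeasureTheory Set Pool.Agent.H83.G
open scoped ENNReal NNReal RealInnerProductSpace

theorem pf_SCL (hLOA : T_LOA) (hLOI : T_LOI) : T_SCL := by
  intro m η s G hs hG
  obtain ⟨-, -, hph, hcomp, hid, -⟩ := hLOA m
  obtain ⟨-, -, hint, -, -, hld⟩ := hLOI m η s hs
  obtain ⟨-, -, -, -, -, hld'⟩ := hLOI m (-(s⁻¹ • η)) s⁻¹ (inv_pos.2 hs)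
  have hs0 : s ≠ 0 := hs.ne'
  have h1 : ∀ ζ : Z m, Ld η s (Ld (-(s⁻¹ • η)) s⁻¹ ζ) = ζ := by
    intro ζ
    rw [(hcomp η (-(s⁻¹ • η)) s s⁻¹ ζ).2]
    have h2 : η + s • -(s⁻¹ • η) = 0 := by
      rw [smul_neg, smul_smul, mul_inv_cancel₀ hs0, one_smul, add_neg_cancel]
    rw [h2, mul_inv_cancel₀ hs0, (hid ζ).2]
  have h3 : ∀ ζ : Z m, Ld (-(s⁻¹ • η)) s⁻¹ (Ld η s ζ) = ζ := by
    intro ζ
    rw [(hcomp (-(s⁻¹ • η)) η s⁻¹ s ζ).2, neg_add_cancel, inv_mul_cancel₀ hs0, (hid ζ).2]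
  let Φ : Z m ≃ₜ Z m :=
    { toFun := Ld η s
      invFun := Ld (-(s⁻¹ • η)) s⁻¹
      left_inv := h3
      right_inv := h1
      continuous_toFun := hld.continuous
      continuous_invFun := hld'.continuous }
  refine ⟨⟨hG.1.comp hld, hG.2.comp_homeomorph Φ⟩, fun z => ?_⟩
  have h4 := hint (fun ζ => e (ph z ζ) * G ζ)
  unfold TF
  have h5 : ∫ ζ : Z m, e (ph (Lo η s z) ζ) * G (Ld η s ζ) =
      (((s⁻¹) ^ (m + 2) : ℝ) : ℂ) * ∫ ζ : Z m, e (ph z ζ) * G ζ := by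
    rw [← h4]
    refine integral_congr_ae (Filter.Eventually.of_forall fun ζ => ?_)
    simp only
    rw [hph]
  rw [h5, ← mul_assoc, ← Complex.ofReal_mul, ← mul_pow, mul_inv_cancel₀ hs0, one_pow,
    Complex.ofReal_one, one_mul]

end Pool.Agent.H65.G.SCL
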